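import Pool.Agent.Helper61.P3.St3

/-!
# Project P3 (MP_cb927e_an), module AVE: averaging over the windows
-/

set_option autoImplicit false

namespace Pool.Agent.Helper82.P3

open Pool.Agent.Helper61.P3 Pool.Agent.Helper20.RG Pool.Agent.Helper20.EQ
open Pool.Agent.Helper68.LM (Pl BB Bd Av HL ft fm DQ)
open Pool.Agent.Helper68.EP (elt GapP)
open MeasureTheory Set Filter Topology
open scoped ENNReal RealInnerProductSpace

/-- Module AVE. -/
theorem hAVE : Pool.Agent.Helper61.P3.StAVE := by
  intro n e X Y he hY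
  classical
  have hTm : ∀ i, MeasurableSet (toMeasurable volume (X i)) := fun i => measurableSet_toMeasurable _ _
  have hFm : Measurable (fun x : Pl => ∑ i ∈ Finset.range n,
      (toMeasurable volume (X i)).indicator (fun _ => (1 : ℝ≥0∞)) x) :=
    Finset.measurable_sum _ fun i _ => measurable_const.indicator (hTm i)
  have hint : ∫⁻ x : Pl, ∑ i ∈ Finset.range n,
      (toMeasurable volume (X i)).indicator (fun _ => (1 : ℝ≥0∞)) x =
      ∑ i ∈ Finset.range n, volume (X i) := by
    rw [lintegral_finset_sum _ (fun i _ => measurable_const.indicator (hTm i))]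
    refine Finset.sum_congr rfl fun i _ => ?_
    rw [lintegral_indicator_const (hTm i), one_mul, measure_toMeasurable]
  have hsub : Y ⊆ {x | (e : ℝ≥0∞) ≤ ∑ i ∈ Finset.range n,
      (toMeasurable volume (X i)).indicator (fun _ => (1 : ℝ≥0∞)) x} := by
    intro x hx
    have h1 := hY x hx
    have h2 : ∑ i ∈ Finset.range n, (toMeasurable volume (X i)).indicator (fun _ => (1 : ℝ≥0∞)) x =
        (((Finset.range n).filter (fun i => x ∈ toMeasurable volume (X i))).card : ℝ≥0∞) := by
      rw [Finset.card_filter, Nat.cast_sum]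
      refine Finset.sum_congr rfl fun i _ => ?_
      by_cases h : x ∈ toMeasurable volume (X i)
      · simp [h]
      · simp [h]
    have h3 : {i : ℕ | i < n ∧ x ∈ X i}.ncard ≤
        ((Finset.range n).filter (fun i => x ∈ toMeasurable volume (X i))).card := by
      rw [← Set.ncard_coe_finset]
      refine Set.ncard_le_ncard ?_ (Finset.finite_toSet _)
      intro i hi
      simp only [Finset.coe_filter, Finset.mem_range, mem_setOf_eq]
      exact ⟨hi.1, subset_toMeasurable _ _ hi.2⟩
    show (e : ℝ≥0∞) ≤ _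
    rw [h2]
    exact_mod_cast h1.trans h3
  have hM := mul_meas_ge_le_lintegral (μ := (volume : Measure Pl)) hFm (e : ℝ≥0∞)
  rw [hint] at hM
  have he0 : (e : ℝ≥0∞) ≠ 0 := by
    simp only [ne_eq, Nat.cast_eq_zero]; omega
  have hinv : ENNReal.ofReal (1 / e) = (e : ℝ≥0∞)⁻¹ := by
    rw [one_div, ENNReal.ofReal_inv_of_pos (by exact_mod_cast he), ENNReal.ofReal_natCast]
  calc volume Y ≤ volume {x : Pl | (e : ℝ≥0∞) ≤ ∑ i ∈ Finset.range n,
        (toMeasurable volume (X i)).indicator (fun _ => (1 : ℝ≥0∞)) x} := measure_mono hsub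
    _ = (e : ℝ≥0∞)⁻¹ * ((e : ℝ≥0∞) * volume {x : Pl | (e : ℝ≥0∞) ≤ ∑ i ∈ Finset.range n,
        (toMeasurable volume (X i)).indicator (fun _ => (1 : ℝ≥0∞)) x}) := by
        rw [← mul_assoc, ENNReal.inv_mul_cancel he0 (ENNReal.natCast_ne_top e), one_mul]
    _ ≤ (e : ℝ≥0∞)⁻¹ * ∑ i ∈ Finset.range n, volume (X i) := mul_le_mul_right hM _
    _ = ENNReal.ofReal (1 / e) * ∑ i ∈ Finset.range n, volume (X i) := by rw [hinv]

end Pool.Agent.Helper82.P3
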