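import Pool.Agent.Helper61.P3.St3

/-!
# Project P3 (MP_cb927e_an), module WLI: the list of windows
-/

set_option autoImplicit false

namespace Pool.Agent.Helper82.P3

open Pool.Agent.Helper61.P3 Pool.Agent.Helper20.RG Pool.Agent.Helper20.EQ
open Pool.Agent.Helper68.LM (Pl BB Bd Av HL ft fm DQ)
open Pool.Agent.Helper68.EP (elt GapP)
open MeasureTheory Set Filter Topology
open scoped ENNReal RealInnerProductSpace

theorem wli_pow (t : ℕ) (ht : 25 ≤ t) : 400 * t + 410 ≤ 2 ^ (t - 7) := by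
  induction t, ht using Nat.le_induction with
  | base => norm_num
  | succ t ht ih =>
    have h1 : t + 1 - 7 = (t - 7) + 1 := by omega
    rw [h1, pow_succ]
    omega

/-- the last scales have few slopes -/
theorem wli_elt {φ τ : ℝ → ℝ} {A : ℝ} (hG : Graph φ τ) (hA : GapP A 3 τ)
    (hCN : Pool.Agent.Helper20.EQ.StCN) (θ : ℝ) (q : ℕ) :
    (q : ℝ) * elt τ θ q ^ 3 ≤ A := by
  have hanti : Antitone (fun i => elt τ θ i) :=
    antitone_nat_of_succ_le fun i => (hCN φ τ hG 0 i θ).2.2.2.2.1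
  have h0 : ∀ i, 0 ≤ elt τ θ i := fun i => (hCN φ τ hG 0 i θ).2.2.1
  have h1 := hA θ q
  refine le_trans ?_ h1
  have h2 : (q : ℝ) * elt τ θ q ^ 3 = ∑ i ∈ Finset.range q, elt τ θ q ^ 3 := by
    rw [Finset.sum_const, Finset.card_range, nsmul_eq_mul]
  rw [h2]
  refine Finset.sum_le_sum fun i hi => ?_
  have h3 : elt τ θ q ≤ elt τ θ (i + 1) := hanti (by have := Finset.mem_range.1 hi; omega)
  have h4 : elt τ θ (i + 1) ^ (3 : ℝ) = elt τ θ (i + 1) ^ 3 := by
    exact_mod_cast Real.rpow_natCast (elt τ θ (i + 1)) 3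
  rw [h4]
  exact pow_le_pow_left₀ (h0 q) h3 3

/-- Module WLI. -/
theorem hWLI (hCN : Pool.Agent.Helper20.EQ.StCN) : Pool.Agent.Helper61.P3.StWLI := by
  intro φ τ A hG hA0 hA
  -- large `u`
  have hc : (1 : ℝ) < (2 : ℝ) ^ (23 / 18000 : ℝ) := Real.one_lt_rpow (by norm_num) (by norm_num)
  obtain ⟨n₁, hn₁⟩ := (((tendsto_pow_atTop_atTop_of_one_lt hc).eventually_ge_atTop
    (800 ^ 3 * 256 * A)).exists_forall_of_atTop)
  refine ⟨max 1000 n₁, le_max_left _ _, ?_⟩
  intro U i hU hi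
  have hU1 : 1000 ≤ U := le_trans (le_max_left _ _) hU
  have hU2 : n₁ ≤ U := le_trans (le_max_right _ _) hU
  have hE : U / 40 - 7 ≤ U / 8 - 5 - i := by omega
  have hE1 : 1 ≤ U / 8 - 5 - i := by omega
  have hq1 : 2 ^ (U / 40 - 7) ≤ qw U i := Nat.pow_le_pow_right (by norm_num) hE
  refine ⟨?_, ?_, ?_, ?_⟩
  · unfold qw
    have h1 : 32 * 2 ^ (U / 8 - 5 - i) = 2 ^ (5 + (U / 8 - 5 - i)) := by rw [pow_add]; norm_num
    rw [h1]
    exact Nat.pow_le_pow_right (by norm_num) (by omega)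
  · unfold qw
    have h1 : U / 8 - 5 - i = (U / 8 - 5 - (i + 1)) + 1 := by omega
    rw [h1, pow_succ, mul_comm]
  · have h1 := wli_pow (U / 40) (by omega)
    omega
  · intro u θ m hu1 hu2 hm
    refine le_trans ?_ hm
    obtain ⟨h1, -, h3, h4, -⟩ := hCN φ τ hG u (qw U i) θ
    have h5 := wli_elt hG hA hCN θ (qw U i)
    set x := elt τ θ (qw U i) with hx
    set M : ℝ := (2 : ℝ) ^ ((1999 / 2000 : ℝ) * u) with hM
    have huR : (1000 : ℝ) ≤ u := by exact_mod_cast hU1.trans hu1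
    have hUu : (u : ℝ) ≤ 9 * U := by exact_mod_cast hu2
    have hM800 : 800 ≤ M := by
      have h6 : (2 : ℝ) ^ (10 : ℝ) ≤ M := by
        rw [hM]
        exact Real.rpow_le_rpow_of_exponent_le (by norm_num) (by linarith)
      have h7 : (2 : ℝ) ^ (10 : ℝ) = 1024 := by
        have := Real.rpow_natCast (2 : ℝ) 10
        norm_num at this ⊢
      linarith
    have hM0 : 0 < M := by linarith
    -- `q ≥ 2^(U/40 - 8)`
    have hq2 : (2 : ℝ) ^ ((u : ℝ) / 360 - 8) ≤ (qw U i : ℝ) := by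
      have h6 : (2 : ℝ) ^ ((u : ℝ) / 360 - 8) ≤ (2 : ℝ) ^ ((U / 40 - 7 : ℕ) : ℝ) := by
        refine Real.rpow_le_rpow_of_exponent_le (by norm_num) ?_
        have h7 : U ≤ 40 * (U / 40 - 7) + 320 := by omega
        have h8 : (U : ℝ) ≤ 40 * ((U / 40 - 7 : ℕ) : ℝ) + 320 := by exact_mod_cast h7
        linarith
      refine h6.trans ?_
      rw [Real.rpow_natCast]
      exact_mod_cast hq1
    have hx3 : (2 : ℝ) ^ ((u : ℝ) / 360 - 8) * x ^ 3 ≤ A :=
      (mul_le_mul_of_nonneg_right hq2 (pow_nonneg h3 3)).trans h5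
    -- the main inequality
    have hmain : 800 * ((2 : ℝ) ^ u * x) ≤ M := by
      have h6 : (800 * ((2 : ℝ) ^ u * x)) ^ 3 ≤ M ^ 3 := by
        have h7 : 800 ^ 3 * 256 * A ≤ (2 : ℝ) ^ ((23 / 18000 : ℝ) * u) := by
          have h8 := hn₁ u (hU2.trans hu1)
          have h8' : ((2 : ℝ) ^ (23 / 18000 : ℝ)) ^ u = (2 : ℝ) ^ ((23 / 18000 : ℝ) * u) := by
            rw [← Real.rpow_natCast ((2 : ℝ) ^ (23 / 18000 : ℝ)) u, ← Real.rpow_mul (by norm_num)]
          rwa [h8'] at h8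
        have h9 : M ^ 3 = (2 : ℝ) ^ (3 * (u : ℝ)) * ((2 : ℝ) ^ ((23 / 18000 : ℝ) * u) *
            (2 : ℝ) ^ (-((u : ℝ) / 360))) := by
          rw [hM, ← Real.rpow_natCast, ← Real.rpow_mul (by norm_num), ← Real.rpow_add (by norm_num),
            ← Real.rpow_add (by norm_num)]
          congr 1
          push_cast
          ring
        have h10 : (800 * ((2 : ℝ) ^ u * x)) ^ 3 = (2 : ℝ) ^ (3 * (u : ℝ)) * (800 ^ 3 * x ^ 3) := by
          have : (2 : ℝ) ^ (3 * (u : ℝ)) = ((2 : ℝ) ^ u) ^ 3 := by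
            rw [← Real.rpow_natCast ((2 : ℝ) ^ u) 3, ← Real.rpow_natCast 2 u, ← Real.rpow_mul (by norm_num)]
            congr 1
            push_cast
            ring
          rw [this]
          ring
        rw [h9, h10]
        refine mul_le_mul_of_nonneg_left ?_ (by positivity)
        have h11 : (2 : ℝ) ^ ((u : ℝ) / 360 - 8) = (2 : ℝ) ^ ((u : ℝ) / 360) / 256 := by
          rw [Real.rpow_sub (by norm_num)]
          congr 1
          have := Real.rpow_natCast (2 : ℝ) 8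
          norm_num at this ⊢
        have h12 : (2 : ℝ) ^ ((u : ℝ) / 360) * (2 : ℝ) ^ (-((u : ℝ) / 360)) = 1 := by
          rw [← Real.rpow_add (by norm_num)]; simp
        have h13 : 0 < (2 : ℝ) ^ (-((u : ℝ) / 360)) := by positivity
        rw [h11] at hx3
        have h14 : x ^ 3 ≤ 256 * A * (2 : ℝ) ^ (-((u : ℝ) / 360)) := by
          have h15 := mul_le_mul_of_nonneg_right hx3 h13.le
          have h16 : (2 : ℝ) ^ ((u : ℝ) / 360) / 256 * x ^ 3 * (2 : ℝ) ^ (-((u : ℝ) / 360)) =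
              x ^ 3 / 256 * ((2 : ℝ) ^ ((u : ℝ) / 360) * (2 : ℝ) ^ (-((u : ℝ) / 360))) := by ring
          rw [h16, h12] at h15
          linarith
        calc 800 ^ 3 * x ^ 3 ≤ 800 ^ 3 * (256 * A * (2 : ℝ) ^ (-((u : ℝ) / 360))) :=
              mul_le_mul_of_nonneg_left h14 (by norm_num)
          _ = (800 ^ 3 * 256 * A) * (2 : ℝ) ^ (-((u : ℝ) / 360)) := by ring
          _ ≤ (2 : ℝ) ^ ((23 / 18000 : ℝ) * u) * (2 : ℝ) ^ (-((u : ℝ) / 360)) :=
              mul_le_mul_of_nonneg_right h7 h13.le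
      exact (pow_le_pow_iff_left₀ (by positivity) hM0.le (by norm_num)).1 h6
    nlinarith [h1, hmain, hM800]

end Pool.Agent.Helper82.P3
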